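import Pool.Agent.Helper25.HL.Goals3

/-!
# Project HL: packet NX
-/

set_option autoImplicit false

open Filter Topology

noncomputable section

namespace Pool.Agent.Helper19.HL

open Pool.Agent.Helper25.HL hiding sq

section args

variable (P : ℕ → ℕ) (D : ∀ k, Lv (P k) (P (k + 1)))

/-- the indices of the early coordinates -/
abbrev Tix (c : ℕ) : Type := (Σ k : Fin c, Fin (P k) ⊕ Fin (P (k + 1))) ⊕ Fin (P c)

theorem card_T (c : ℕ) : Fintype.card (Tix P c) = dim0 P c := by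
  unfold dim0
  rw [Fintype.card_sum, Fintype.card_sigma, Fintype.card_fin, Finset.sum_range]
  simp

/-- an enumeration of the early coordinates -/
def eqT (c : ℕ) : Tix P c ≃ Fin (dim0 P c) := Fintype.equivFinOfCardEq (card_T P c)

theorem pr_add (x y : XX P D) (k : ℕ) : pr P D (x + y) k = pr P D x k + pr P D y k := by
  show toPair (D k) ((x + y : XX P D) k) = _
  rw [lp.coeFn_add, Pi.add_apply, map_add]
  rfl

theorem pr_smul (a : ℂ) (x : XX P D) (k : ℕ) : pr P D (a • x) k = a • pr P D x k := by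
  show toPair (D k) ((a • x : XX P D) k) = _
  rw [lp.coeFn_smul, Pi.smul_apply, map_smul]
  rfl

/-- all the coordinates of the arguments -/
def args (c : ℕ) (s : ℂ) : XX P D →ₗ[ℂ] Arg (dim0 P c) (P (c + 1)) (P (c + 1 + 1)) where
  toFun x := (fun i => Sum.elim (fun t : Σ k : Fin c, Fin (P k) ⊕ Fin (P (k + 1)) =>
      Sum.elim (pr P D x t.1).1 (pr P D x t.1).2 t.2) (s • (pr P D x c).1) ((eqT P c).symm i),
    s • (pr P D x c).2, s • (pr P D x (c + 1)).1, s • (pr P D x (c + 1)).2)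
  map_add' x y := by
    refine Prod.ext ?_ (Prod.ext ?_ (Prod.ext ?_ ?_))
    · funext i
      show (Sum.elim _ _ ((eqT P c).symm i) : ℂ) = (Sum.elim _ _ ((eqT P c).symm i) : ℂ) +
        (Sum.elim _ _ ((eqT P c).symm i) : ℂ)
      rcases (eqT P c).symm i with ⟨k, a | b⟩ | a
      · simp only [Sum.elim_inl, pr_add, Prod.fst_add, Pi.add_apply]
      · simp only [Sum.elim_inl, Sum.elim_inr, pr_add, Prod.snd_add, Pi.add_apply]
      · simp only [Sum.elim_inr, pr_add, Prod.fst_add, smul_add, Pi.add_apply]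
    · show s • (pr P D (x + y) c).2 = s • (pr P D x c).2 + s • (pr P D y c).2
      rw [pr_add, Prod.snd_add, smul_add]
    · show s • (pr P D (x + y) (c + 1)).1 = s • (pr P D x (c + 1)).1 + s • (pr P D y (c + 1)).1
      rw [pr_add, Prod.fst_add, smul_add]
    · show s • (pr P D (x + y) (c + 1)).2 = s • (pr P D x (c + 1)).2 + s • (pr P D y (c + 1)).2
      rw [pr_add, Prod.snd_add, smul_add]
  map_smul' a x := by
    refine Prod.ext ?_ (Prod.ext ?_ (Prod.ext ?_ ?_))
    · funext i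
      show (Sum.elim _ _ ((eqT P c).symm i) : ℂ) = a * (Sum.elim _ _ ((eqT P c).symm i) : ℂ)
      rcases (eqT P c).symm i with ⟨k, b | b⟩ | b
      · simp only [Sum.elim_inl, pr_smul, Prod.smul_fst, Pi.smul_apply, smul_eq_mul]
      · simp only [Sum.elim_inl, Sum.elim_inr, pr_smul, Prod.smul_snd, Pi.smul_apply, smul_eq_mul]
      · simp only [Sum.elim_inr, pr_smul, Prod.smul_fst, Pi.smul_apply, smul_eq_mul]
        ring
    · show s • (pr P D (a • x) c).2 = a • (s • (pr P D x c).2)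
      rw [pr_smul, Prod.smul_snd, smul_comm]
    · show s • (pr P D (a • x) (c + 1)).1 = a • (s • (pr P D x (c + 1)).1)
      rw [pr_smul, Prod.smul_fst, smul_comm]
    · show s • (pr P D (a • x) (c + 1)).2 = a • (s • (pr P D x (c + 1)).2)
      rw [pr_smul, Prod.smul_snd, smul_comm]

theorem sq_smul {ι : Type} [Fintype ι] (s : ℂ) (z : ι → ℂ) : Helper25.HL.sq (s • z) = ‖s‖ ^ 2 * Helper25.HL.sq z := by
  unfold Pool.Agent.Helper25.HL.sq
  simp only [Pi.smul_apply, smul_eq_mul, norm_mul, mul_pow, Finset.mul_sum]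

theorem sq_args_fst (c : ℕ) (s : ℂ) (x : XX P D) :
    Helper25.HL.sq (args P D c s x).1 = ∑ k ∈ Finset.range c, pq2 (pr P D x k) +
      ‖s‖ ^ 2 * Helper25.HL.sq (pr P D x c).1 := by
  unfold Pool.Agent.Helper25.HL.sq
  show ∑ i, ‖Sum.elim (fun t : Σ k : Fin c, Fin (P k) ⊕ Fin (P (k + 1)) =>
      Sum.elim (pr P D x t.1).1 (pr P D x t.1).2 t.2) (s • (pr P D x c).1)
      ((eqT P c).symm i)‖ ^ 2 = _
  rw [Equiv.sum_comp (eqT P c).symm (fun t => ‖Sum.elim
    (fun t : Σ k : Fin c, Fin (P k) ⊕ Fin (P (k + 1)) =>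
      Sum.elim (pr P D x t.1).1 (pr P D x t.1).2 t.2) (s • (pr P D x c).1) t‖ ^ 2),
    Fintype.sum_sum_type, Fintype.sum_sigma, Finset.sum_range]
  congr 1
  · refine Finset.sum_congr rfl fun k _ => ?_
    rw [Fintype.sum_sum_type]
    rfl
  · simp only [Sum.elim_inr, Pi.smul_apply, smul_eq_mul, norm_mul, mul_pow, Finset.mul_sum]

theorem pr_le (x : XX P D) (k : ℕ) : pq2 (pr P D x k) ≤ 4 ^ (D k).J * ‖x k‖ ^ 2 := by
  have h := pq2_le_lnm (D k).σ (D k).J (D k).r (toPair (D k) (x k))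
  rw [← LV_norm_def] at h
  exact h

theorem ev_le (x : XX P D) (k : ℕ) : ‖x k‖ ≤ ‖x‖ :=
  lp.norm_apply_le_norm (by norm_num) x k

theorem pr_le' (x : XX P D) (k : ℕ) : pq2 (pr P D x k) ≤ 4 ^ (D k).J * ‖x‖ ^ 2 := by
  refine (pr_le P D x k).trans ?_
  have h := ev_le P D x k
  gcongr

theorem exists_M (c : ℕ) (s : ℂ) : ∃ M : ℝ, 0 ≤ M ∧ ∀ x : XX P D,
    sqA (args P D c s x) ≤ M * ‖x‖ ^ 2 := by
  refine ⟨∑ k ∈ Finset.range c, (4 : ℝ) ^ (D k).J + ‖s‖ ^ 2 * 4 ^ (D c).J +
    ‖s‖ ^ 2 * 4 ^ (D (c + 1)).J, by positivity, fun x => ?_⟩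
  have e1 : sqA (args P D c s x) = ∑ k ∈ Finset.range c, pq2 (pr P D x k) +
      ‖s‖ ^ 2 * pq2 (pr P D x c) + ‖s‖ ^ 2 * pq2 (pr P D x (c + 1)) := by
    unfold sqA
    rw [sq_args_fst]
    show _ + Helper25.HL.sq (s • (pr P D x c).2) + Helper25.HL.sq (s • (pr P D x (c + 1)).1) +
      Helper25.HL.sq (s • (pr P D x (c + 1)).2) = _
    rw [sq_smul, sq_smul, sq_smul]
    unfold pq2
    ring
  rw [e1, add_mul, add_mul, Finset.sum_mul, mul_assoc, mul_assoc]
  gcongr with k hk
  · exact pr_le' P D x k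
  · exact pr_le' P D x c
  · exact pr_le' P D x (c + 1)

theorem coord_le {ι : Type} [Fintype ι] (z : ι → ℂ) (t : ι) : ‖z t‖ ^ 2 ≤ Helper25.HL.sq z := by
  unfold Pool.Agent.Helper25.HL.sq
  exact Finset.single_le_sum (f := fun t => ‖z t‖ ^ 2) (fun t _ => by positivity)
    (Finset.mem_univ t)

end args

/-- **NX.** -/
theorem nx (h1 : S_LD) (h2 : S_LP2) : S_NX := by
  intro P D c m J₁ K ε R H
  have _ := h2
  have hJ := H.hJ
  have hJ1 : 1 ≤ (D c).J := le_trans H.hJ₁ H.hJ₁'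
  set θ : ℝ := 2 ^ (D c).J with hθ
  have hθ1 : 1 ≤ θ := one_le_pow₀ (by norm_num)
  have hθ0 : 0 < θ := by linarith
  set sr : ℝ := 1 / Real.sqrt θ with hsr
  have hsr0 : 0 ≤ sr := by positivity
  have hsr2 : sr ^ 2 = 1 / θ := by
    rw [hsr, div_pow, Real.sq_sqrt hθ0.le, one_pow]
  have hsr1 : sr ≤ 1 := by
    have : sr ^ 2 ≤ 1 ^ 2 := by
      rw [hsr2, one_pow]
      exact (div_le_one hθ0).2 hθ1
    exact (sq_le_sq₀ hsr0 zero_le_one).1 this
  set s : ℂ := (sr : ℂ) with hs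
  have hsn : ‖s‖ = sr := by
    rw [hs, Complex.norm_real, Real.norm_eq_abs, abs_of_nonneg hsr0]
  obtain ⟨Cst0, hC0⟩ := H.hnl (dim0 P c) H.hd
  obtain ⟨M, hM0, hM⟩ := exists_M P D c s
  refine ⟨Real.sqrt (max Cst0 0 * M), Real.sqrt_nonneg _, ?_⟩
  intro N ϖ u hϖ hK hu huc huc1
  -- the two scaled vectors
  have hlev : ∀ j, ∀ k, (D k).J = (D c).J → ‖u j k‖ ^ 2 ≤ 1 / θ →
      lnm (D k).σ (D k).J (D k).r (s • pr P D (u j) k) ≤ 1 / 2 ^ (D k).J := by
    intro j k hk hle
    rw [lnm_smul _ _ (D k).hr, hsn, hk, ← hθ]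
    have e1 : lnm (D k).σ (D c).J (D k).r (pr P D (u j) k) = ‖u j k‖ := by
      rw [LV_norm_def, hk]
      rfl
    rw [e1]
    have h3 : ‖u j k‖ ≤ sr := by
      have : ‖u j k‖ ^ 2 ≤ sr ^ 2 := by rw [hsr2]; exact hle
      exact (sq_le_sq₀ (norm_nonneg _) hsr0).1 this
    calc sr * ‖u j k‖ ≤ sr * sr := by gcongr
      _ = 1 / θ := by rw [← pow_two, hsr2]
  have hLc := fun j => h1 _ _ (D c).σ (D c).J (D c).r (D c).hr (s • pr P D (u j) c)
    (hlev j c rfl (huc j))
  have hLc1 := fun j => h1 _ _ (D (c + 1)).σ (D (c + 1)).J (D (c + 1)).r (D (c + 1)).hr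
    (s • pr P D (u j) (c + 1)) (hlev j (c + 1) hJ.symm (huc1 j))
  have hJ₁'' : J₁ ≤ (D (c + 1)).J := by rw [← hJ]; exact H.hJ₁'
  choose al hal1 hal2 using fun j => (hLc j).2 J₁ H.hJ₁ H.hJ₁'
  choose be hbe1 hbe2 using fun j => (hLc1 j).2 J₁ H.hJ₁ hJ₁''
  choose be' hbe1' hbe2' using fun j => (hLc1 j).2 (D (c + 1)).J (hJ ▸ hJ1) le_rfl
  let sys : Sys (D (c + 1)).σ K R (2 / 2 ^ J₁) (2 ^ (D c).J) (dim0 P c) N :=
    { ϖ := ϖ
      e := fun j => (args P D c s (u j)).1
      A := fun j => (args P D c s (u j)).2.1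
      u := fun j => (args P D c s (u j)).2.2.1
      w := fun j => (args P D c s (u j)).2.2.2
      α := al
      β := be
      β' := be'
      hϖ := hϖ
      hK := hK
      he := by
        intro j i
        have key : ∀ k ≤ c, ∀ v : ℝ, 0 ≤ v → v ^ 2 ≤ pq2 (pr P D (u j) k) → v ≤ P (c + 1) := by
          intro k hk v hv hv2
          have h3 := hv2.trans (pr_le' P D (u j) k)
          have h4 : (4 : ℝ) ^ (D k).J * ‖u j‖ ^ 2 ≤ (2 ^ (D k).J) ^ 2 := by
            have h5 : ‖u j‖ ^ 2 ≤ 1 := by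
              have := hu j
              nlinarith [norm_nonneg (u j)]
            calc (4 : ℝ) ^ (D k).J * ‖u j‖ ^ 2 ≤ 4 ^ (D k).J * 1 := by gcongr
              _ = (2 ^ (D k).J) ^ 2 := by
                rw [mul_one, ← pow_mul, mul_comm, pow_mul]
                norm_num
          have h5 : v ≤ 2 ^ (D k).J := (sq_le_sq₀ hv (by positivity)).1 (h3.trans h4)
          refine h5.trans ?_
          exact_mod_cast H.h2J k hk
        show ‖Sum.elim (fun t : Σ k : Fin c, Fin (P k) ⊕ Fin (P (k + 1)) =>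
          Sum.elim (pr P D (u j) t.1).1 (pr P D (u j) t.1).2 t.2) (s • (pr P D (u j) c).1)
          ((eqT P c).symm i)‖ ≤ _
        rcases (eqT P c).symm i with ⟨k, a | a⟩ | a
        · refine key k k.2.le _ (norm_nonneg _) ?_
          have := coord_le (pr P D (u j) k).1 a
          have h7 := sq_nn (pr P D (u j) k).2
          unfold pq2
          simp only [Sum.elim_inl]
          linarith
        · refine key k k.2.le _ (norm_nonneg _) ?_
          have := coord_le (pr P D (u j) k).2 a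
          have h7 := sq_nn (pr P D (u j) k).1
          unfold pq2
          simp only [Sum.elim_inl, Sum.elim_inr]
          linarith
        · have h6 : ‖(s • (pr P D (u j) c).1) a‖ ≤ ‖(pr P D (u j) c).1 a‖ := by
            rw [Pi.smul_apply, smul_eq_mul, norm_mul, hsn]
            exact mul_le_of_le_one_left (norm_nonneg _) hsr1
          refine h6.trans (key c le_rfl _ (norm_nonneg _) ?_)
          have := coord_le (pr P D (u j) c).1 a
          have h7 := sq_nn (pr P D (u j) c).2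
          unfold pq2
          linarith
      hA := by
        intro j
        have h3 := hal1 j
        unfold pq2 at h3
        have h4 := sq_nn ((s • pr P D (u j) c - Gm (D c).σ (al j)).1)
        have h5 : (s • pr P D (u j) c - Gm (D c).σ (al j)).2 =
          (args P D c s (u j)).2.1 - al j := rfl
        rw [h5] at h3
        linarith
      hα := fun j => (hal2 j).trans H.hR
      huw := fun j => (hLc1 j).1
      hβ := hbe1
      hβR := fun j => (hbe2 j).trans H.hR'
      hβ' := by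
        intro j
        have h3 := hbe1' j
        rw [← hJ] at h3
        exact h3
      hβ'R := by
        intro j
        refine (hbe2' j).trans ?_
        have h3 : Real.sqrt ((D (c + 1)).r (D (c + 1)).J) ≤ (P (c + 1) : ℝ) ^ (1 / 16 : ℝ) := by
          refine (Real.sqrt_le_sqrt H.hrJ).trans ?_
          rw [Real.sqrt_eq_rpow, ← Real.rpow_mul (by positivity)]
          norm_num
        have h4 : (2 : ℝ) / 2 ^ (D (c + 1)).J ≤ 1 := by
          rw [div_le_one (by positivity), ← hJ]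
          calc (2 : ℝ) = 2 ^ 1 := by norm_num
            _ ≤ 2 ^ (D c).J := pow_le_pow_right₀ (by norm_num) hJ1
        calc 2 / 2 ^ (D (c + 1)).J * Real.sqrt ((D (c + 1)).r (D (c + 1)).J)
            ≤ 1 * Real.sqrt ((D (c + 1)).r (D (c + 1)).J) := by
              gcongr
          _ ≤ _ := by rw [one_mul]; exact h3 }
  obtain ⟨o⟩ := hC0 N sys
  let G : Fin N → (XX P D →L[ℂ] ℂ) := fun j =>
    ((o.g j) ∘ₗ (args P D c s)).mkContinuous (Real.sqrt (max Cst0 0 * M)) (by
      intro x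
      have h3 := o.hg j (args P D c s x)
      have h4 : ‖(o.g j ∘ₗ args P D c s) x‖ ^ 2 ≤ (Real.sqrt (max Cst0 0 * M) * ‖x‖) ^ 2 := by
        rw [mul_pow, Real.sq_sqrt (by positivity)]
        have h5 : 0 ≤ sqA (args P D c s x) := by
          unfold sqA
          have := sq_nn (args P D c s x).1
          have := sq_nn (args P D c s x).2.1
          have := sq_nn (args P D c s x).2.2.1
          have := sq_nn (args P D c s x).2.2.2
          linarith
        calc ‖(o.g j ∘ₗ args P D c s) x‖ ^ 2 ≤ Cst0 * sqA (args P D c s x) := h3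
          _ ≤ max Cst0 0 * sqA (args P D c s x) := by gcongr; exact le_max_left _ _
          _ ≤ max Cst0 0 * (M * ‖x‖ ^ 2) := by gcongr; exact hM x
          _ = _ := by ring
      exact (sq_le_sq₀ (norm_nonneg _) (by positivity)).1 h4)
  have hG : ∀ j x, G j x = o.g j (args P D c s x) := fun j x => rfl
  -- linearity
  have hlin : ∀ i, ∑ j, ((ϖ j : ℂ) * G j (u i)) • args P D c s (u j) =
      args P D c s (∑ j, ((ϖ j : ℂ) * G j (u i)) • u j) := by
    intro i
    rw [map_sum]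
    refine Finset.sum_congr rfl fun j _ => ?_
    rw [map_smul]
  refine ⟨G, o.n, ⟨o.B, o.C, o.hB, o.hC⟩, o.c, fun j => ?_, o.hn, fun j i => ?_, ?_, o.hc, ?_⟩
  · exact LinearMap.mkContinuous_norm_le _ (Real.sqrt_nonneg _) _
  · exact o.hBC j i
  · refine le_trans (le_of_eq ?_) o.he
    refine Finset.sum_congr rfl fun i _ => ?_
    congr 1
    set x : XX P D := u i - ∑ j, ((ϖ j : ℂ) * G j (u i)) • u j with hx
    have hxa : args P D c s x = args P D c s (u i) -
        ∑ j, ((ϖ j : ℂ) * G j (u i)) • args P D c s (u j) := by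
      rw [hlin, hx, map_sub]
    have h3 : sys.e i - ∑ j, ((sys.ϖ j : ℂ) * o.g j (sys.e i, sys.A i, sys.u i, sys.w i)) •
        sys.e j = (args P D c s x).1 := by
      rw [hxa, Prod.fst_sub, Prod.fst_sum]
      rfl
    have h4 : sys.A i - ∑ j, ((sys.ϖ j : ℂ) * o.g j (sys.e i, sys.A i, sys.u i, sys.w i)) •
        sys.A j = (args P D c s x).2.1 := by
      rw [hxa, Prod.snd_sub, Prod.fst_sub, Prod.snd_sum, Prod.fst_sum]
      rfl
    rw [h3, h4, sq_args_fst]
    have h5 : (args P D c s x).2.1 = s • (pr P D x c).2 := rfl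
    rw [h5, sq_smul, hsn, hsr2]
    unfold pq2
    ring
  · refine le_trans (le_of_eq ?_) o.hy
    refine Finset.sum_congr rfl fun i _ => ?_
    congr 1
    set x : XX P D := ∑ j, ((ϖ j : ℂ) * G j (u i)) • u j with hx
    have hxa : args P D c s x = ∑ j, ((ϖ j : ℂ) * G j (u i)) • args P D c s (u j) := by
      rw [hlin]
    have h3 : ∑ j, ((sys.ϖ j : ℂ) * o.g j (sys.e i, sys.A i, sys.u i, sys.w i)) • sys.u j =
        (args P D c s x).2.2.1 := by
      rw [hxa, Prod.snd_sum, Prod.snd_sum, Prod.fst_sum]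
      rfl
    have h4 : ∑ j, ((sys.ϖ j : ℂ) * o.g j (sys.e i, sys.A i, sys.u i, sys.w i)) • sys.w j =
        (args P D c s x).2.2.2 := by
      rw [hxa, Prod.snd_sum, Prod.snd_sum, Prod.snd_sum]
      rfl
    rw [h3, h4]
    rfl

end Pool.Agent.Helper19.HL
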